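import Pool.Agent.Run7.h430.TW.Abc
import Pool.Agent.Results.MP_14cf73_nt.ExceptionsByHeight

/-!
# The inequality `c < C H (abc) ^ M` for the triples with a divisor of `abc` near almost all orbits of Euler's function

`H (n) = γ (n) / (log γ (n)) ^ ω (n)`. Let `φ_k` be the `k`-th iterate of Euler's function, `φ_0(m) = m`. Let `f`, `g` be positive
multiplicative functions of at most polynomial growth such that `f p ≤ M p` for the large primes `p`, with different values at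
different large primes; for example the identity, Euler's function or the sum of the divisors. Let `F`, `G` be functions with
steps bounded below by a positive constant and growth at most `v^d`, `v^d'` (for example `α v^d`), and `A > 0`, `C > 0`, `M > 0`,
`κ ≥ 0`.

(1) One orbit. If `2 A d / (3 M) + κ < 1`, there is `K(m)` tending to infinity such that for almost all `m`, for ALL
`k, a ≤ K(m)`, `a ≥ 1`, and EVERY integer `n` with `|n - a F(v)| ≤ K(m) v^κ`, `v = f(φ_k(m))`: EVERY admissible triple for which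
`abc` is divisible by `n` and `c ≤ n^A` satisfies `c < C H(abc)^M`. For `M = 1 + ε`, `C = C(ε)` this is the inequality of the
question, with any constant, for example (`A = 1`, `κ = 0`, `d = 1`) for all the triples one of whose terms is
`a φ_k(m) + h`, `k, a, |h| ≤ K(m)`.

(2) Pairs of orbits. Let `2 A / (3 M) < 1`, `L ≥ 1`, `c = (1 - 2 A / (3 M)) / (8 (L + 1)^3)`, and `d (1 - c) + κ < 1`,
`d' (1 - c) + κ < 1`. There is `K(m)` tending to infinity such that for 100% of the pairs `(m, m')` (in every box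
`[1, N] × [1, N']` with large sides), with `K = K(min (m, m'))`, for ALL `k, l, a, b ≤ K`, `a, b ≥ 1`, and ALL `n, n'` with
`|n - a F(v)| ≤ K v^κ`, `|n' - b G(w)| ≤ K w^κ`, `v = f(φ_k(m))`, `w = g(φ_l(m'))`, `n ≤ n'^L`, `n' ≤ n^L`: EVERY admissible triple
with `n n' ∣ abc` and `c ≤ (n n')^A` satisfies `c < C H(abc)^M`. This applies with `A = 1` to the triples `(n, n', n + n')` and
`(n, n' - n, n')`, and for `A > 1` to triples for which only divisors of `abc` are prescribed by the orbits.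

The iterates of Euler's function are not multiplicative, and the values `φ_k(m)`, `m ≤ N`, form a thin set and are taken with
very large multiplicities; so this does not follow from the number of the exceptional triples (`ExceptionsByHeight`, starting
files), which is used here. The tool is `Pool.Agent.N760.IT` (starting files), in the form of `Run7/h430/TW` (multiples,
enlarged windows; pairs of orbits).
-/

set_option autoImplicit false

namespace Pool.Agent.Run7.h430.Shelf.MP_14cf73_nt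

open Finset Filter Topology

/-- `γ(n)`, the product of the primes dividing `n` -/
def radical (n : ℕ) : ℕ := ∏ p ∈ n.primeFactors, p

/-- `ω(n)`, the number of primes dividing `n` -/
def omega (n : ℕ) : ℕ := n.primeFactors.card

/-- `H(n) = γ(n) / (log γ(n)) ^ ω(n)` -/
noncomputable def H (n : ℕ) : ℝ := (radical n : ℝ) / Real.log (radical n : ℝ) ^ omega n

/-- all admissible triples `(a, b, c)` with `n ∣ abc` and `c ≤ n ^ A` satisfy `c < C H(abc) ^ M` -/
def Good (A C M : ℝ) (n : ℕ) : Prop :=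
  ∀ a b c : ℕ, 0 < a → 0 < b → Nat.Coprime a b → a + b = c → n ∣ a * b * c → (c : ℝ) ≤ (n : ℝ) ^ A →
    (c : ℝ) < C * H (a * b * c) ^ M

/-- A positive multiplicative function of at most polynomial growth, at most `M p` at the large primes `p` and with different
values at different large primes. -/
structure Moderate (f : ℕ → ℕ) : Prop where
  mul : ∀ m n : ℕ, Nat.Coprime m n → f (m * n) = f m * f n
  pos : ∀ m : ℕ, 1 ≤ m → 1 ≤ f m
  growth : ∃ C D : ℕ, ∀ m : ℕ, 1 ≤ m → f m ≤ C * m ^ D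
  prime : ∃ P M : ℕ, ∀ p : ℕ, P ≤ p → p.Prime → f p ≤ M * p ∧ ∀ q : ℕ, P ≤ q → q.Prime → f q = f p → q = p

/-- The steps of `G` are at least a positive constant, and `G` grows at most like `v ^ d`, `d ≥ 1`. -/
structure Expanding (G : ℕ → ℝ) (d : ℝ) : Prop where
  one_le : 1 ≤ d
  step : ∃ a : ℝ, 0 < a ∧ ∀ v : ℕ, 1 ≤ v → a ≤ G (v + 1) - G v
  growth : ∃ C : ℝ, ∀ v : ℕ, 1 ≤ v → G v ≤ C * (v : ℝ) ^ d

open Classical in
/-- The proportion of the positive integers `m ≤ N` without the property `P` tends to `0`. -/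
def AlmostAll (P : ℕ → Prop) : Prop :=
  Tendsto (fun N : ℕ => (((Icc 1 N).filter (fun m => ¬ P m)).card : ℝ) / N) atTop (𝓝 0)

open Classical in
/-- `P m m'` holds for 100% of the pairs `(m, m')`, in all boxes `[1, N] × [1, N']` with large sides. -/
def AlmostAllPairs (P : ℕ → ℕ → Prop) : Prop :=
  ∀ δ : ℝ, 0 < δ → ∃ N₀ : ℕ, ∀ N N' : ℕ, N₀ ≤ N → N₀ ≤ N' →
    ((((Icc 1 N) ×ˢ (Icc 1 N')).filter (fun p => ¬ P p.1 p.2)).card : ℝ) ≤ δ * ((N : ℝ) * N')

/-- the value of `f` at the `k`-th iterate of Euler's function -/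
def orb (f : ℕ → ℕ) (k m : ℕ) : ℕ := f (Nat.totient^[k] m)

theorem lm_of {f : ℕ → ℕ} (hf : Moderate f) : Pool.Agent.N733.TG.LM f := ⟨hf.mul, hf.pos, hf.growth, hf.prime⟩

theorem of_lm {f : ℕ → ℕ} (hf : Pool.Agent.N733.TG.LM f) : Moderate f := ⟨hf.mul, hf.pos, hf.growth, hf.prime⟩

theorem ex_of {G : ℕ → ℝ} {d : ℝ} (h : Expanding G d) : Pool.Agent.N733.TG.Expanding G d := ⟨h.one_le, h.step, h.growth⟩

theorem aap_of {P : ℕ → ℕ → Prop} (h : Run7.h430.TW.Pairs.PairAA P) : AlmostAllPairs P := h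

/-- the exceptional pairs `(a, b)` -/
def Exc (C M : ℝ) (a b : ℕ) : Prop := Nat.Coprime a b ∧ C * H (a * b * (a + b)) ^ M ≤ ((a + b : ℕ) : ℝ)

theorem few {C M : ℝ} (hC : 0 < C) (hM : 0 < M) : Run7.h430.TW.Abc.Few (Exc C M) (2 / (3 * M)) := by
  intro δ hδ
  obtain ⟨K, hK, h⟩ := Pool.Agent.Results.MP_14cf73_nt.ExceptionsByHeight.result C M δ hC hM hδ
  refine ⟨K, fun B hB => ?_⟩
  have e : {p : ℕ × ℕ | 0 < p.1 ∧ 0 < p.2 ∧ Exc C M p.1 p.2 ∧ ((p.1 + p.2 : ℕ) : ℝ) ≤ B} =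
      Pool.Agent.Results.MP_14cf73_nt.ExceptionsByHeight.exceptions C M B := by
    ext p
    constructor
    · rintro ⟨h1, h2, ⟨h3, h4⟩, h5⟩
      exact ⟨h1, h2, h3, h5, h4⟩
    · rintro ⟨h1, h2, h3, h5, h4⟩
      exact ⟨h1, h2, ⟨h3, h4⟩, h5⟩
  rw [e]
  exact h B hB

theorem good_of {A C M : ℝ} {n : ℕ} (h : Run7.h430.TW.Abc.Free (Exc C M) A n) : Good A C M n := by
  intro a b c ha hb hab habc hd hh
  subst habc
  by_contra hcon
  exact h a b ha hb hd hh ⟨hab, not_lt.1 hcon⟩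

/-- **The inequality with `H` along orbits and pairs of orbits of Euler's function.** `Good A C M n`: all admissible triples
with `n ∣ abc` and `c ≤ n ^ A` satisfy `c < C H(abc) ^ M`. -/
theorem result (A C M κ : ℝ) (hA : 0 < A) (hC : 0 < C) (hM : 0 < M) (hκ : 0 ≤ κ) :
    (∀ f : ℕ → ℕ, Moderate f → ∀ (F : ℕ → ℝ) (d : ℝ), Expanding F d → 2 * A * d / (3 * M) + κ < 1 →
      ∃ K : ℕ → ℕ, Tendsto K atTop atTop ∧
        AlmostAll (fun m => ∀ k ≤ K m, ∀ a : ℕ, 1 ≤ a → a ≤ K m → ∀ n : ℕ,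
          |(n : ℝ) - a * F (orb f k m)| ≤ K m * (orb f k m : ℝ) ^ κ → Good A C M n)) ∧
    (∀ f g : ℕ → ℕ, Moderate f → Moderate g → ∀ (F G : ℕ → ℝ) (d d' : ℝ), Expanding F d → Expanding G d' →
      ∀ L : ℕ, 2 * A / (3 * M) < 1 → d * (1 - (1 - 2 * A / (3 * M)) / (8 * ((L : ℝ) + 1) ^ 3)) + κ < 1 →
      d' * (1 - (1 - 2 * A / (3 * M)) / (8 * ((L : ℝ) + 1) ^ 3)) + κ < 1 →
      ∃ K : ℕ → ℕ, Tendsto K atTop atTop ∧ AlmostAllPairs (fun m m' => ∀ k ≤ K (min m m'), ∀ l ≤ K (min m m'),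
        ∀ a b : ℕ, 1 ≤ a → a ≤ K (min m m') → 1 ≤ b → b ≤ K (min m m') → ∀ n n' : ℕ,
          |(n : ℝ) - a * F (orb f k m)| ≤ K (min m m') * (orb f k m : ℝ) ^ κ →
          |(n' : ℝ) - b * G (orb g l m')| ≤ K (min m m') * (orb g l m' : ℝ) ^ κ →
          1 ≤ n → 1 ≤ n' → n ≤ n' ^ L → n' ≤ n ^ L → Good A C M (n * n'))) ∧
    (Moderate (fun m => m) ∧ Moderate Nat.totient ∧ Moderate (fun m => ∑ d ∈ m.divisors, d)) ∧
    ∀ a d : ℝ, 0 < a → 1 ≤ d → Expanding (fun v => a * (v : ℝ) ^ d) d := by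
  refine ⟨fun f hf F d hF h1 => ?_, fun f g hf hg F G d d' hF hG L hA7 h1 h2 => ?_,
    ⟨of_lm Pool.Agent.N760.IT.lm_id, of_lm Pool.Agent.N733.TG.lm_totient, of_lm Pool.Agent.N733.TG.lm_sigma⟩,
    fun a d ha hd => ?_⟩
  · have e : d * (A * (2 / (3 * M))) = 2 * A * d / (3 * M) := by ring
    obtain ⟨K, hK, h2⟩ := Run7.h430.TW.Abc.one (few hC hM) (by positivity) hA (lm_of hf) (ex_of hF) hκ (by rw [e]; exact h1)
    exact ⟨K, hK, Pool.Agent.N826.IT.Orb.almostAll_mono h2 (fun m hm k hk a ha1 ha n hn => good_of (hm k hk a ha1 ha n hn))⟩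
  · have e : A * (2 / (3 * M)) = 2 * A / (3 * M) := by ring
    obtain ⟨K, hK, h3⟩ := Run7.h430.TW.Abc.pairs (few hC hM) (by positivity) hA (by rw [e]; exact hA7) L (lm_of hf)
      (lm_of hg) (ex_of hF) (ex_of hG) hκ (by rw [e]; exact h1) (by rw [e]; exact h2)
    refine ⟨K, hK, aap_of (fun δ hδ => ?_)⟩
    obtain ⟨N₀, hN₀⟩ := h3 δ hδ
    refine ⟨N₀, fun N N' hN hN' => le_trans ?_ (hN₀ N N' hN hN')⟩
    refine Nat.cast_le.2 (Run7.h430.TW.Pairs.card_mono2 (fun p _ hp hq => hp (fun k hk l hl a b ha1 ha hb1 hb n n' hn hn'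
      hn1 hn1' h6 h7 => ?_)))
    exact good_of (hq k hk l hl a b ha1 ha hb1 hb n n' hn hn' hn1 hn1' h6 h7)
  · obtain ⟨h1, h2, h3⟩ := Pool.Agent.N733.TG.expanding_pow ha hd
    exact ⟨h1, h2, h3⟩

end Pool.Agent.Run7.h430.Shelf.MP_14cf73_nt
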