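import Pool.Agent.Run7.h430.TW.Kit
import Pool.Agent.Results.MP_6f1c57_nt.ProximityWindows

/-!
# The height inequality with proximity function for the numbers whose heights are near almost all orbits of Euler's function

Let `φ_k` be the `k`-th iterate of Euler's function, `φ_0(m) = m`. Let `f` be a positive multiplicative function of at most
polynomial growth such that `f p ≤ M p` for the large primes `p`, with different values at different large primes; for example
the identity, Euler's function or the sum of the divisors. Let `G` have steps bounded below by a positive constant and growth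
at most `v ^ d`, for example `G v = α v ^ d`.

For a curve which is finite over the `t`-line, divisors above `q ≥ 3` rational points, `r ≥ 2` and `0 ≤ κ ≤ q`, let `σ ≥ 0` with
`d e / (r + 1) + σ < 1`, where `e < r + 1` is explicit, and `C₀` real. There is `K(m)` tending to infinity such that for almost
all `m`, for ALL `k, a ≤ K(m)`, `a ≥ 1`, with `v = f(φ_k(m))`, the inequality
`m_S(D, P) + (degree - κ) h(x) ≤ d(L) + ∑_{p ∈ S} log p - C₀` holds for ALL algebraic numbers `x` of degree `r` with
`|H(x) ^ (r (r + 1)) - a G(v)| ≤ K(m) v ^ σ`, ALL points `P` of the curve above `x`, over any number field `L`, and ALL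
finite sets `S` of primes.

The iterates of Euler's function are not multiplicative, and the values `φ_k(m)`, `m ≤ N`, form a thin set and are taken with
very large multiplicities; so this does not follow from the number of the exceptional numbers (`ProximityAllCurves`,
`ProximityWindows`, starting files), which is used here. The tool is `Pool.Agent.N760.IT` (starting files), in the form of
`Run7/h430/TW/Kit` (multiples and enlarged windows).
-/

set_option autoImplicit false

namespace Pool.Agent.Results.MP_6f1c57_nt.TotientOrbits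

open Finset Filter Topology
open Polynomial IsDedekindDomain NumberField
open ProximityAllCurves (height coord proximity logDisc degree alpha exponent exceptional)
open ProximityWindows (Val Bad)

/-- A positive multiplicative function of at most polynomial growth, at most `M p` at the large primes `p` and with different
values at different large primes. -/
structure Moderate (f : ℕ → ℕ) : Prop where
  mul : ∀ m n : ℕ, Nat.Coprime m n → f (m * n) = f m * f n
  pos : ∀ m : ℕ, 1 ≤ m → 1 ≤ f m
  growth : ∃ C D : ℕ, ∀ m : ℕ, 1 ≤ m → f m ≤ C * m ^ D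
  prime : ∃ P M : ℕ, ∀ p : ℕ, P ≤ p → p.Prime → f p ≤ M * p ∧ ∀ q : ℕ, P ≤ q → q.Prime → f q = f p → q = p

/-- The steps of `G` are at least a positive constant, and `G` grows at most like `v ^ d`, `d ≥ 1`. -/
structure Expanding (G : ℕ → ℝ) (d : ℝ) : Prop where
  one_le : 1 ≤ d
  step : ∃ a : ℝ, 0 < a ∧ ∀ v : ℕ, 1 ≤ v → a ≤ G (v + 1) - G v
  growth : ∃ C : ℝ, ∀ v : ℕ, 1 ≤ v → G v ≤ C * (v : ℝ) ^ d

open Classical in
/-- The proportion of the positive integers `m ≤ N` without the property `P` tends to `0`. -/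
def AlmostAll (P : ℕ → Prop) : Prop :=
  Tendsto (fun N : ℕ => (((Icc 1 N).filter (fun m => ¬ P m)).card : ℝ) / N) atTop (𝓝 0)

/-- the value of `f` at the `k`-th iterate of Euler's function -/
def orb (f : ℕ → ℕ) (k m : ℕ) : ℕ := f (Nat.totient^[k] m)

theorem lm_of {f : ℕ → ℕ} (hf : Moderate f) : Pool.Agent.N733.TG.LM f := ⟨hf.mul, hf.pos, hf.growth, hf.prime⟩

theorem of_lm {f : ℕ → ℕ} (hf : Pool.Agent.N733.TG.LM f) : Moderate f := ⟨hf.mul, hf.pos, hf.growth, hf.prime⟩

theorem ex_of {G : ℕ → ℝ} {d : ℝ} (h : Expanding G d) : Pool.Agent.N733.TG.Expanding G d := ⟨h.one_le, h.step, h.growth⟩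

/-- the inequality of the question, for all points `P = φ` above `x` (a root of `g`), with the constant `-C₀` -/
def Holds {A : Type} [CommRing A] [Algebra ℚ A] [Algebra ℚ[X] A] {q : ℕ} (u : Fin q → ℕ)
    (y : ∀ j, Fin (u j + 1) → A) (κ C₀ : ℝ) (g : ℤ[X]) (x : ℂ) : Prop :=
  ∀ (L : IntermediateField ℚ ℂ) [NumberField L] (φ : A →+* L) (S : Finset ℕ),
    (φ (coord A) : ℂ) = x → (∀ p ∈ S, p.Prime) →
    proximity S u y L φ + (degree u y - κ) * height g ≤ logDisc L + ∑ p ∈ S, Real.log p - C₀

/-- **Theorem.** For `η > 0` there is `c ≥ 1` such that the following holds. Let `A` be a Dedekind domain, finite over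
`ℚ[t]` and containing it, let `r ≥ 2`, let `a_1, …, a_q` be `q ≥ 3` distinct rational numbers, let
`y_{j 0} = t - a_j, y_{j 1}, …` be elements of the radical of the ideal `(t - a_j)` and `κ ≤ q`. (For `κ ≥ 0` the exponent
`e = exponent (alpha r c η) r q κ` is smaller than `r + 1`.) Let `f` be `Moderate`, `G` `Expanding` with exponent `d`, `σ ≥ 0` and
`d max e 0 / (r + 1) + σ < 1`. For all `C₀` there is `K(m)` tending to infinity such that for almost all `m`, for all
`k, b ≤ K(m)`, `b ≥ 1`, with `v = f(φ_k(m))`, the inequality holds for ALL algebraic numbers `x` of degree `r` (with irreducible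
integral polynomial `g` and height `H = exp (height g)`) with `|H ^ (r (r + 1)) - b G(v)| ≤ K(m) v ^ σ`, ALL points `P = φ` of
the curve above `x` over any number field `L` and ALL finite sets `S` of primes. -/
theorem result :
    (∀ η : ℝ, 0 < η → ∃ c : ℝ, 1 ≤ c ∧
      ∀ (A : Type) [CommRing A] [IsDedekindDomain A] [Algebra ℚ A] [Algebra ℚ[X] A]
        [IsScalarTower ℚ ℚ[X] A] [Module.Finite ℚ[X] A] [FaithfulSMul ℚ[X] A]
        (r q : ℕ), 2 ≤ r → 3 ≤ q → ∀ a : Fin q → ℚ, Function.Injective a →
      ∀ (u : Fin q → ℕ) (y : ∀ j, Fin (u j + 1) → A),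
      (∀ j, y j 0 = coord A - algebraMap ℚ[X] A (C (a j))) →
      (∀ j i, y j i ∈ (Ideal.span {coord A - algebraMap ℚ[X] A (C (a j))}).radical) →
      ∀ κ : ℝ, κ ≤ q →
      (0 ≤ κ → exponent (alpha r c η) r q κ < r + 1) ∧
      ∀ f : ℕ → ℕ, Moderate f → ∀ (G : ℕ → ℝ) (d : ℝ), Expanding G d → ∀ σ : ℝ, 0 ≤ σ →
        d * (max (exponent (alpha r c η) r q κ) 0 / (r + 1)) + σ < 1 →
        ∀ C₀ : ℝ, ∃ K : ℕ → ℕ, Tendsto K atTop atTop ∧ AlmostAll (fun m => ∀ k ≤ K m, ∀ b : ℕ, 1 ≤ b → b ≤ K m →
          ∀ (x : ℂ) (g : ℤ[X]), Irreducible g → g.natDegree = r → aeval x g = 0 →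
            |Real.exp (height g) ^ (r * (r + 1)) - b * G (orb f k m)| ≤ K m * (orb f k m : ℝ) ^ σ →
              Holds u y κ C₀ g x)) ∧
    (Moderate (fun m => m) ∧ Moderate Nat.totient ∧ Moderate (fun m => ∑ d ∈ m.divisors, d)) ∧
    ∀ a d : ℝ, 0 < a → 1 ≤ d → Expanding (fun v => a * (v : ℝ) ^ d) d := by
  refine ⟨fun η hη => ?_,
    ⟨of_lm Pool.Agent.N760.IT.lm_id, of_lm Pool.Agent.N733.TG.lm_totient, of_lm Pool.Agent.N733.TG.lm_sigma⟩,
    fun a d ha hd => ?_⟩
  · obtain ⟨c, hc, hmain⟩ := ProximityAllCurves.result η hη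
    refine ⟨c, hc, fun A _ _ _ _ _ _ _ r q hr hq a ha u y hy0 hy κ hκ =>
      ⟨fun h0 => ProximityWindows.expo_lt hr hq hc h0, fun f hf G d hG σ hσ h1 C₀ => ?_⟩⟩
    obtain ⟨K, hK, h2⟩ := Run7.h430.TW.kit (Val u y r κ (-C₀)) (fun z => z) (lm_of hf) (ex_of hG)
      (s := max (exponent (alpha r c η) r q κ) 0 / (r + 1)) (κ := σ)
      (div_nonneg (le_max_right _ _) (by positivity)) hσ h1
      (fun ε hε => ProximityWindows.count u y hr κ (-C₀) _
        (fun δ hδ => hmain A r q hr hq a ha u y hy0 hy κ (-C₀) δ hκ hδ) ε hε)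
    refine ⟨K, hK, Pool.Agent.N826.IT.Orb.almostAll_mono h2 (fun m hm k hk b hb1 hb x g hg hgr hgx hw => ?_)⟩
    by_contra hcon
    unfold Holds at hcon
    push Not at hcon
    obtain ⟨L, hL, φ, S, hφ, hS, hlt⟩ := hcon
    refine absurd hw (not_le.2 (hm k hk b hb1 hb _ ⟨g, x, ⟨hg, hgr, hgx, L, hL, φ, S, hφ, hS, ?_⟩, rfl⟩))
    linarith
  · obtain ⟨h1, h2, h3⟩ := Pool.Agent.N733.TG.expanding_pow ha hd
    exact ⟨h1, h2, h3⟩

end Pool.Agent.Results.MP_6f1c57_nt.TotientOrbits
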