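import Pool.Agent.Run7.h430.TW.KitSlow
import Pool.Agent.Results.MP_ca2859_nt.MultiplicativeValues

/-!
# The discriminant bound for all hyperelliptic curves with heights near almost all orbits of Euler's function

Hyperelliptic curves of genus `g ≥ 2` over a number field `F` all of whose Weierstrass points are rational: the twists by
`d ∈ F*` of `y² = X ∏ (X - x_i)`, where `x` is a point of `P^{2g-1}(F)` with `0, x_i` different.

Let `φ_k` be the `k`-th iterate of Euler's function, `φ_0(m) = m`. Let `f` be a positive multiplicative function of at most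
polynomial growth such that `f p ≤ M p` for the large primes `p`, with different values at different large primes; for example
the identity, Euler's function or the sum of the divisors. Let `G` have steps bounded below by a positive constant and growth
at most `v ^ e`, for example `G v = α v ^ e`.

Let `κ > 4 g + 4` and `θ ≥ 0`. If `e` and `θ` are small in terms of `κ` (explicitly), then there is `K(m)` tending to infinity such
that for almost all `m`, for ALL `k, a ≤ K(m)`, `a ≥ 1`, with `v = f(φ_k(m))`, the inequality `Δ_C ≤ M_C ^ κ / (K(m) + 1)` holds for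
ALL twists of ALL configurations `x` with `|H_F(x) ^ (2g) - a G(v)| ≤ K(m) v ^ θ`: the constant tends to `0`. If `κ < 4 g + 4` then in
the same situation, for EACH such `x`, `Δ_C > (K(m) + 1) M_C ^ κ` for some twist.

The iterates of Euler's function are not multiplicative, and the values `φ_k(m)`, `m ≤ N`, form a thin set and are taken with
very large multiplicities; so this does not follow from the number of the exceptional configurations
(`RationalWeierstrassPoints`, starting files), which is used here. The tool is `Pool.Agent.N760.IT` (starting files), in the form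
of `Run7/h430/TW/KitSlow` (multiples, enlarged windows, families of exceptional sets).
-/

set_option autoImplicit false

open NumberField Height Finset LinearAlgebra.Projectivization Polynomial Filter Topology
open Pool.Agent.W318 (discNorm badNorm)

namespace Pool.Agent.Results.MP_ca2859_nt.TotientOrbits

open Pool.Agent.Results.MP_ca2859_nt.MultiplicativeValues (roots curve expo expoBelow count_of)

/-- A positive multiplicative function of at most polynomial growth, at most `M p` at the large primes `p` and with different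
values at different large primes. -/
structure Moderate (f : ℕ → ℕ) : Prop where
  mul : ∀ m n : ℕ, Nat.Coprime m n → f (m * n) = f m * f n
  pos : ∀ m : ℕ, 1 ≤ m → 1 ≤ f m
  growth : ∃ C D : ℕ, ∀ m : ℕ, 1 ≤ m → f m ≤ C * m ^ D
  prime : ∃ P M : ℕ, ∀ p : ℕ, P ≤ p → p.Prime → f p ≤ M * p ∧ ∀ q : ℕ, P ≤ q → q.Prime → f q = f p → q = p

/-- The steps of `G` are at least a positive constant, and `G` grows at most like `v ^ d`, `d ≥ 1`. -/
structure Expanding (G : ℕ → ℝ) (d : ℝ) : Prop where
  one_le : 1 ≤ d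
  step : ∃ a : ℝ, 0 < a ∧ ∀ v : ℕ, 1 ≤ v → a ≤ G (v + 1) - G v
  growth : ∃ C : ℝ, ∀ v : ℕ, 1 ≤ v → G v ≤ C * (v : ℝ) ^ d

open Classical in
/-- The proportion of the positive integers `m ≤ N` without the property `P` tends to `0`. -/
def AlmostAll (P : ℕ → Prop) : Prop :=
  Tendsto (fun N : ℕ => (((Icc 1 N).filter (fun m => ¬ P m)).card : ℝ) / N) atTop (𝓝 0)

/-- the value of `f` at the `k`-th iterate of Euler's function -/
def orb (f : ℕ → ℕ) (k m : ℕ) : ℕ := f (Nat.totient^[k] m)

theorem lm_of {f : ℕ → ℕ} (hf : Moderate f) : Pool.Agent.N733.TG.LM f := ⟨hf.mul, hf.pos, hf.growth, hf.prime⟩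

theorem of_lm {f : ℕ → ℕ} (hf : Pool.Agent.N733.TG.LM f) : Moderate f := ⟨hf.mul, hf.pos, hf.growth, hf.prime⟩

theorem ex_of {G : ℕ → ℝ} {d : ℝ} (h : Expanding G d) : Pool.Agent.N733.TG.Expanding G d := ⟨h.one_le, h.step, h.growth⟩

/-- the configurations with a twist violating the inequality with the constant `c` -/
def Viol (F : Type) [Field F] [NumberField F] (g n : ℕ) (κ c : ℝ) : Set (ℙ F (Fin (n + 1) → F)) :=
  {P | Function.Injective (roots P.rep) ∧ ∃ d : F, d ≠ 0 ∧
    c * (badNorm g (curve d P.rep) : ℝ) ^ κ < (discNorm g (curve d P.rep) : ℝ)}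

/-- the configurations without such a twist -/
def Pers (F : Type) [Field F] [NumberField F] (g n : ℕ) (κ c : ℝ) : Set (ℙ F (Fin (n + 1) → F)) :=
  {P | Function.Injective (roots P.rep) ∧ ∀ d : F, d ≠ 0 →
    (discNorm g (curve d P.rep) : ℝ) ≤ c * (badNorm g (curve d P.rep) : ℝ) ^ κ}

/-- **Theorem.** Let `f` be `Moderate`, `G` `Expanding` with exponent `e`, `F` a number field, `g ≥ 2` and `θ ≥ 0`. (1) If
`κ > 4 g + 4` then `expo g κ < 2 g`, and if `e * expo g κ / (2 g) + θ < 1` there is `K(m)` tending to infinity such that for almost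
all `m`, for all `k, a ≤ K(m)`, `a ≥ 1`, the inequality `Δ_C ≤ M_C ^ κ / (K(m) + 1)` holds for ALL twists `d` of ALL configurations
`P` with different roots and `|H_F(P) ^ (2 g) - a G(v)| ≤ K(m) v ^ θ`, `v = f(φ_k(m))`. (2) If `0 ≤ κ < 4 g + 4` then
`expoBelow g κ < 2 g`, and if `e * expoBelow g κ / (2 g) + θ < 1` there is `K(m)` tending to infinity such that for almost all `m`,
for all `k, a ≤ K(m)`, `a ≥ 1`, for EACH such configuration `Δ_C > (K(m) + 1) M_C ^ κ` for some twist. (3) The identity, Euler's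
function and the sum of the divisors are `Moderate`, and `G v = α v ^ e` with `α > 0`, `e ≥ 1` is `Expanding`. -/
theorem result :
    (∀ f : ℕ → ℕ, Moderate f → ∀ (G : ℕ → ℝ) (e : ℝ), Expanding G e →
      ∀ (F : Type) [Field F] [NumberField F] (g n : ℕ) (κ θ : ℝ), 2 ≤ g → n + 1 = 2 * g → 0 ≤ θ →
      (4 * g + 4 < κ → expo g κ < 2 * g ∧ (e * (expo g κ / (2 * g)) + θ < 1 → ∃ K : ℕ → ℕ, Tendsto K atTop atTop ∧
        AlmostAll (fun m => ∀ k ≤ K m, ∀ a : ℕ, 1 ≤ a → a ≤ K m → ∀ P : ℙ F (Fin (n + 1) → F),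
          Function.Injective (roots P.rep) →
          |P.mulHeight ^ (2 * g) - a * G (orb f k m)| ≤ K m * (orb f k m : ℝ) ^ θ → ∀ d : F, d ≠ 0 →
            (discNorm g (curve d P.rep) : ℝ) ≤ 1 / (K m + 1) * (badNorm g (curve d P.rep) : ℝ) ^ κ))) ∧
      (0 ≤ κ → κ < 4 * g + 4 →
        expoBelow g κ < 2 * g ∧ (e * (expoBelow g κ / (2 * g)) + θ < 1 → ∃ K : ℕ → ℕ, Tendsto K atTop atTop ∧
        AlmostAll (fun m => ∀ k ≤ K m, ∀ a : ℕ, 1 ≤ a → a ≤ K m → ∀ P : ℙ F (Fin (n + 1) → F),
          Function.Injective (roots P.rep) →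
          |P.mulHeight ^ (2 * g) - a * G (orb f k m)| ≤ K m * (orb f k m : ℝ) ^ θ → ∃ d : F, d ≠ 0 ∧
            (K m + 1) * (badNorm g (curve d P.rep) : ℝ) ^ κ < (discNorm g (curve d P.rep) : ℝ))))) ∧
    (Moderate (fun m => m) ∧ Moderate Nat.totient ∧ Moderate (fun m => ∑ d ∈ m.divisors, d)) ∧
    ∀ a d : ℝ, 0 < a → 1 ≤ d → Expanding (fun v => a * (v : ℝ) ^ d) d := by
  refine ⟨fun f hf G e hG F _ _ g n κ θ hg hn hθ => ⟨fun hκ => ?_, fun hκ0 hκ => ?_⟩,
    ⟨of_lm Pool.Agent.N760.IT.lm_id, of_lm Pool.Agent.N733.TG.lm_totient, of_lm Pool.Agent.N733.TG.lm_sigma⟩,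
    fun a d ha hd => ?_⟩
  · obtain ⟨h1, h2⟩ := (RationalWeierstrassPoints.result F g n hg hn κ).1 hκ
    have hg2 : (2 : ℝ) ≤ g := by exact_mod_cast hg
    have hs : 0 ≤ expo g κ := by
      have hk : 0 < κ - 4 * g - 2 := by linarith
      unfold expo
      refine le_min ((by linarith : (0 : ℝ) ≤ 2 * g - 1 / 2).trans (le_max_left _ _)) (le_min ?_ ?_)
      · positivity
      · have : (0 : ℝ) ≤ 2 * g - 1 := by linarith
        positivity
    refine ⟨h1, fun hle => ?_⟩
    have hmono : ∀ i j : ℕ, i ≤ j → Viol F g n κ (1 / ((i : ℝ) + 1)) ⊆ Viol F g n κ (1 / ((j : ℝ) + 1)) := by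
      rintro i j hij P ⟨g1, d, g2, g3⟩
      refine ⟨g1, d, g2, lt_of_le_of_lt ?_ g3⟩
      have hij' : (i : ℝ) ≤ j := by exact_mod_cast hij
      exact mul_le_mul_of_nonneg_right (one_div_le_one_div_of_le (by positivity) (by linarith)) (by positivity)
    obtain ⟨K, hK, h3⟩ := Run7.h430.TW.kit_slow (fun j : ℕ => Viol F g n κ (1 / ((j : ℝ) + 1))) hmono
      (fun P => P.mulHeight ^ (2 * g)) (lm_of hf) (ex_of hG) (s := expo g κ / (2 * g)) (κ := θ) (by positivity) hθ hle
      (fun j => count_of hg _ (fun B => RationalWeierstrassPoints.exceptional F g n κ (1 / ((j : ℝ) + 1)) B) (expo g κ)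
        (fun δ hδ => h2 _ δ (by positivity) hδ) (fun P hP B hB hB2 => ⟨hP.1, hB2, hP.2⟩))
    refine ⟨K, hK, Pool.Agent.N826.IT.Orb.almostAll_mono h3 (fun m hm k hk a ha1 ha P hP hw d hd => ?_)⟩
    by_contra hcon
    exact absurd hw (not_le.2 (hm k hk a ha1 ha P ⟨hP, d, hd, not_le.1 hcon⟩))
  · obtain ⟨h1, h2⟩ := (RationalWeierstrassPoints.result F g n hg hn κ).2 hκ0 hκ
    have hg2 : (2 : ℝ) ≤ g := by exact_mod_cast hg
    have hs : 0 ≤ expoBelow g κ := by
      unfold expoBelow
      exact (by linarith : (0 : ℝ) ≤ 2 * g - 1 / 2).trans (le_max_left _ _)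
    refine ⟨h1, fun hle => ?_⟩
    have hmono : ∀ i j : ℕ, i ≤ j → Pers F g n κ ((i : ℝ) + 1) ⊆ Pers F g n κ ((j : ℝ) + 1) := by
      rintro i j hij P ⟨g1, g2⟩
      refine ⟨g1, fun d hd => (g2 d hd).trans ?_⟩
      have hij' : (i : ℝ) ≤ j := by exact_mod_cast hij
      exact mul_le_mul_of_nonneg_right (by linarith) (by positivity)
    obtain ⟨K, hK, h3⟩ := Run7.h430.TW.kit_slow (fun j : ℕ => Pers F g n κ ((j : ℝ) + 1)) hmono
      (fun P => P.mulHeight ^ (2 * g)) (lm_of hf) (ex_of hG) (s := expoBelow g κ / (2 * g)) (κ := θ) (by positivity) hθ hle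
      (fun j => count_of hg _ (fun B => RationalWeierstrassPoints.uniform F g n κ ((j : ℝ) + 1) B) (expoBelow g κ)
        (fun δ hδ => h2 _ δ (by positivity) hδ) (fun P hP B hB hB2 => ⟨hP.1, hB2, hP.2⟩))
    refine ⟨K, hK, Pool.Agent.N826.IT.Orb.almostAll_mono h3 (fun m hm k hk a ha1 ha P hP hw => ?_)⟩
    by_contra hcon
    push Not at hcon
    exact absurd hw (not_le.2 (hm k hk a ha1 ha P ⟨hP, hcon⟩))
  · obtain ⟨h1, h2, h3⟩ := Pool.Agent.N733.TG.expanding_pow ha hd
    exact ⟨h1, h2, h3⟩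

end Pool.Agent.Results.MP_ca2859_nt.TotientOrbits
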